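import Mathlib
import Pool.Agent.H95.TP.Word

set_option autoImplicit false

/-!
# Tight contact structures of opposite sign on lens spaces and small Seifert spaces

`W` is a ruled surface over the sphere with a section `C0` of square `-e`, blown up over `l ≤ e`
fibres, so that the `i`-th special fibre is a chain of spheres from `C0` to the other section
`Cinf`, with a single `(-1)`-curve `E`. `X` is a neighbourhood of `C0` and the curves between
`C0` and the `E`s, `P` the other side, `Y = ∂X = -∂P`. For `l ≤ 1 < e` these are the lens spaces
`L(p, q)`, `p ≥ 2`, for `l = 3 ≤ e` the small Seifert spaces with `e_0 = -e ≤ -3`. The positive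
tight contact structures of `Y` come from Legendrian surgery on `X`, the negative ones from
Legendrian surgery on `P'`, which is `P` blown up `e - l` times and surgered along a sphere of
square `0` (a 1-handle). If two of them had the same spin^c structure, there would be a
characteristic class `K` on `W` restricting to both. This is impossible.

Proof. Let `f = K(F)`, `h_i = K(e_(i,0))`, `g_i = f - h_i`. If `g_i < 0` and `h_i > t`, then after
every blow-up there is a curve `C ≠ E` of the `i`-th chain with `|K(C)| ≥ |C²|` (with `t`
subtracted if `C` meets `Cinf`), and with the sign of `K(C)` opposite to that of `K(E)` if `C`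
meets `E`: induction. So `g_i` has the sign of `D = f - t`, and `K(C0) = -((e - l) D + ∑ g_i)` has
absolute value at least `e`.
-/

namespace Pool.Agent.Results.MP_e6c4d0_gt.NoTightPair

open Pool.Agent.H95.TP

theorem result :
    (∀ (l e : ℕ) (w : Fin l → List Bool), l ≤ e →
      (∀ (ξ : PosTight e w) (η : NegTight e w), ¬SameSpinc ξ η) ∧
      (2 ≤ e → Nonempty (PosTight e w)) ∧ Nonempty (NegTight e w)) ∧
    ∀ (l e : ℕ) (a : Fin l → List ℤ), (∀ i, a i ≠ [] ∧ ∀ x ∈ a i, 2 ≤ x) →
      ∃ w : Fin l → List Bool, ∀ i, (fibre i (w i)).1.map (fun S => -form e S S) = a i :=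
  ⟨fun _ e w h => ⟨fun ξ η => no_pair h ξ η, fun he => nonempty_pos he w, nonempty_neg e w⟩,
    fun _ e a ha => exists_words e a ha⟩

end Pool.Agent.Results.MP_e6c4d0_gt.NoTightPair
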